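import Pool.Graph.R_pool_sql_team_seeded_3997aac3.Results.MP_e3fe77_co.WeightedRegularSequences

/-!
# Positivity of `[15n]! [2n]! / ([10n]! [4n]! [3n]!)` and of its refinements

For all `n, d ≥ 1` the ratio `(1 - q^d) W_n / (1 - q^(10n+1))`, where
`W_n = [15n]! [2n]! / ([10n]! [4n]! [3n]!)`, is a polynomial with non-negative integer
coefficients. For `d = 1` this is `A_n`, for `d = 10n+1` it is the polynomial `W_n` of the
conjecture of Warnaar and Zudilin. In the same way for `B_n`.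
-/

set_option autoImplicit false

namespace Pool.Agent.Results.MP_e3fe77_co.WarnaarZudilin

open Pool.Agent.Results.MP_e3fe77_co.WeightedRegularSequences

/-- `W_n(q) = [15n]! [2n]! / ([10n]! [4n]! [3n]!)` -/
noncomputable def W (n : ℕ) : RatFunc ℚ :=
  (br (15 * n) * br (2 * n)) / (br (10 * n) * br (4 * n) * br (3 * n))

lemma coeff_mul_nonneg {P Q : Polynomial ℤ} (hP : ∀ k, 0 ≤ P.coeff k) (hQ : ∀ k, 0 ≤ Q.coeff k) :
    ∀ k, 0 ≤ (P * Q).coeff k := by
  intro k
  rw [Polynomial.coeff_mul]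
  exact Finset.sum_nonneg fun x _ => mul_nonneg (hP _) (hQ _)

lemma nonneg_mul {f g : RatFunc ℚ} (hf : NonnegIntPoly f) (hg : NonnegIntPoly g) :
    NonnegIntPoly (f * g) := by
  obtain ⟨P, hP, rfl⟩ := hf
  obtain ⟨Q, hQ, rfl⟩ := hg
  exact ⟨P * Q, coeff_mul_nonneg hP hQ, by rw [Polynomial.map_mul, map_mul]⟩

lemma one_sub_ne {k : ℕ} (hk : 0 < k) : (1 : RatFunc ℚ) - RatFunc.X ^ k ≠ 0 := by
  have h := fac_ne k hk
  intro h1
  apply h
  apply phi_inj
  rw [map_sub, map_one, map_pow, phi_X, map_zero, h1]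

/-- `(1 - q^(a d)) / (1 - q^a) = 1 + q^a + ⋯ + q^(a (d-1))` -/
lemma geom {a : ℕ} (ha : 0 < a) (d : ℕ) :
    NonnegIntPoly ((1 - RatFunc.X ^ (a * d)) / (1 - RatFunc.X ^ a)) := by
  refine ⟨∑ i ∈ Finset.range d, Polynomial.X ^ (a * i), fun k => ?_, ?_⟩
  · rw [Polynomial.finsetSum_coeff]
    exact Finset.sum_nonneg fun i _ => by
      rw [Polynomial.coeff_X_pow]
      split_ifs <;> norm_num
  · rw [div_eq_iff (one_sub_ne ha)]
    have h : (1 : Polynomial ℤ) - Polynomial.X ^ (a * d) =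
        (∑ i ∈ Finset.range d, Polynomial.X ^ (a * i)) * (1 - Polynomial.X ^ a) := by
      have h1 := geom_sum_mul_neg ((Polynomial.X : Polynomial ℤ) ^ a) d
      rw [← pow_mul] at h1
      rw [← h1]
      congr 1
      exact Finset.sum_congr rfl fun i _ => by rw [pow_mul]
    have h2 := congrArg phi h
    rw [map_mul, map_sub, map_sub, map_one, map_pow, map_pow, phi_X] at h2
    exact h2

lemma br_ne (m : ℕ) : br m ≠ 0 := by
  rw [← phi_qf]
  intro h
  exact qf_ne m (phi_inj (by rw [h, map_zero]))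

/-- **Positivity of the refinements of `W_n`.** -/
theorem result (n : ℕ) (hn : 0 < n) :
    (∀ d : ℕ, NonnegIntPoly ((1 - RatFunc.X ^ d) * W n / (1 - RatFunc.X ^ (10 * n + 1)))) ∧
    (∀ a b c : ℕ, NonnegIntPoly
      ((1 - RatFunc.X ^ (3 * a)) * (1 - RatFunc.X ^ (7 * b)) * (1 - RatFunc.X ^ c) * W n /
        ((1 - RatFunc.X) ^ 2 * (1 - RatFunc.X ^ (10 * n + 3))))) ∧
    NonnegIntPoly (W n) ∧ NonnegIntPoly (A n) ∧ NonnegIntPoly (B n) := by
  have hx : (1 : RatFunc ℚ) - RatFunc.X ≠ 0 := by simpa using one_sub_ne Nat.one_pos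
  have hx1 := one_sub_ne (Nat.succ_pos (10 * n))
  have hx3 := one_sub_ne (show 0 < 10 * n + 3 by omega)
  have h3 := one_sub_ne (show 0 < 3 by norm_num)
  have h7 := one_sub_ne (show 0 < 7 by norm_num)
  have hb1 := br_ne (10 * n)
  have hb2 := br_ne (4 * n)
  have hb3 := br_ne (3 * n)
  obtain ⟨hA, hB⟩ := WeightedRegularSequences.result n hn
  have key : ∀ d : ℕ, NonnegIntPoly ((1 - RatFunc.X ^ d) * W n /
      (1 - RatFunc.X ^ (10 * n + 1))) := by
    intro d
    have h := nonneg_mul hA (geom Nat.one_pos d)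
    have he : A n * ((1 - RatFunc.X ^ (1 * d)) / (1 - RatFunc.X ^ 1)) =
        (1 - RatFunc.X ^ d) * W n / (1 - RatFunc.X ^ (10 * n + 1)) := by
      rw [A, W, one_mul, pow_one]
      field_simp
    rwa [he] at h
  refine ⟨key, fun a b c => ?_, ?_, hA, hB⟩
  · have h := nonneg_mul (nonneg_mul (nonneg_mul hB (geom (show 0 < 3 by norm_num) a))
      (geom (show 0 < 7 by norm_num) b)) (geom Nat.one_pos c)
    have he : B n * ((1 - RatFunc.X ^ (3 * a)) / (1 - RatFunc.X ^ 3)) *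
        ((1 - RatFunc.X ^ (7 * b)) / (1 - RatFunc.X ^ 7)) *
        ((1 - RatFunc.X ^ (1 * c)) / (1 - RatFunc.X ^ 1)) =
        (1 - RatFunc.X ^ (3 * a)) * (1 - RatFunc.X ^ (7 * b)) * (1 - RatFunc.X ^ c) * W n /
        ((1 - RatFunc.X) ^ 2 * (1 - RatFunc.X ^ (10 * n + 3))) := by
      rw [B, W, one_mul, pow_one]
      field_simp
    rwa [he] at h
  · have h := key (10 * n + 1)
    have he : (1 - RatFunc.X ^ (10 * n + 1)) * W n / (1 - RatFunc.X ^ (10 * n + 1)) = W n := by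
      rw [mul_comm, mul_div_assoc, div_self hx1, mul_one]
    rwa [he] at h

end Pool.Agent.Results.MP_e3fe77_co.WarnaarZudilin
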